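import Pool.Agent.Y122.CR.Many

/-!
# Continuum many finitely generated groups of every finite regularity which are not smooth

Full (positive) answer to question Q1 of problem MP_84d7a8_al, for `M = I` and for `M = S^1`, in a
stronger form than the earlier result `FiniteNotSmooth`, which gives one such group: there is a
family of pairwise non-isomorphic finitely generated groups indexed by the real numbers, and each of
them contains a non-trivial element which is killed by every homomorphism to the group of smooth
diffeomorphisms of the interval or of the circle.

The definitions are those of `Pool/Agent/W331/CR/Defs.lean`: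

* `DiffI r`: the orientation preserving `C^r` diffeomorphisms of the interval `[0,1]` (a subgroup of
  the group of the order automorphisms of `[0,1]`, with one-sided derivatives at the ends);
* `DiffS r`: the orientation preserving `C^r` diffeomorphisms of the circle `ℝ/ℤ`;
* `CS r`: the `C^r` diffeomorphisms of the line which are the identity outside `(1/4,3/4)`.
-/

set_option autoImplicit false

namespace Pool.Agent.Results.MP_84d7a8_al.ContinuumManyGroups

open Set Function
open scoped ContDiff
open Pool.Agent.W331.CR

/-- There are finitely generated groups `G r`, indexed by the real numbers `r` and pairwise not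
isomorphic, such that, for every `r`,

* for every natural number `k` the group `G r` embeds into the group of the orientation preserving
  `C^k` diffeomorphisms of `[0,1]`, into that of the circle, and into the group of the `C^k`
  diffeomorphisms of the line which are the identity outside `(1/4,3/4)`;
* there is an element `y ≠ 1` of `G r` with `φ y = 1` for every homomorphism `φ` from `G r` to the
  group of the orientation preserving smooth diffeomorphisms of `[0,1]` or to that of the circle. -/
theorem result : ∃ (G : ℝ → Type) (_ : ∀ r, Group (G r)),
    (∀ r, Group.FG (G r) ∧
      (∀ k : ℕ, (∃ φ : G r →* DiffI k, Injective φ) ∧ (∃ φ : G r →* DiffS k, Injective φ) ∧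
        ∃ φ : G r →* CS k, Injective φ) ∧
      ∃ y : G r, y ≠ 1 ∧ (∀ φ : G r →* DiffI ∞, φ y = 1) ∧ (∀ φ : G r →* DiffS ∞, φ y = 1)) ∧
    ∀ r r' : ℝ, r ≠ r' → IsEmpty (G r ≃* G r') :=
  Pool.Agent.Y122.CR.many

end Pool.Agent.Results.MP_84d7a8_al.ContinuumManyGroups
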